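import Mathlib

set_option autoImplicit false

/-!
Nearly finitely presented modules over generalized divided power algebras do not form an abelian
category when the noetherian base ring is not complete, even if infinitely many `π_n` lie in its
Jacobson radical.

The example: `k = ℤ_(2)`, `π_n = 2` if `n ≥ 2` is a power of `2` and `π_n = 1` otherwise, and the map
`τ_{≥ 1}(D ⊕ D) → D/(x^{[1]})`, `(c, d) x^{[m]} ↦ (c + u_m d) x^{[m]}`, where `u_m = ∑_{i < m} 2^(i^2)`
converges to a `2`-adic integer which is not rational.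
-/

namespace Pool.Agent.Results.MP_ae9641_al.KernelNotNfp

/-! ### Definitions of the problem -/

section Defs

variable {k : Type} [CommRing k]

/-- The structure constant `C(n, m) = ∏_{d ≥ 2} π_d ^ (⌊n/d⌋ - ⌊m/d⌋ - ⌊(n-m)/d⌋)`; the factors with
`d > n` are equal to `1`. -/
def Cc (π : ℕ → k) (n m : ℕ) : k :=
  ∏ d ∈ Finset.Icc 2 n, π d ^ (n / d - m / d - (n - m) / d)

/-- Whenever `π_n` and `π_m` lie in a common maximal ideal, `n ∣ m` or `m ∣ n`. -/
def Admissible (π : ℕ → k) : Prop :=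
  ∀ n m : ℕ, 2 ≤ n → 2 ≤ m → ∀ P : Ideal k, P.IsMaximal → π n ∈ P → π m ∈ P → n ∣ m ∨ m ∣ n

/-- A `ℤ`-graded module over the generalized divided power algebra `D = D(π; k)`: `k`-modules `M_j`
(`j ∈ ℤ`) with `k`-linear operators `x^{[n]} : M_i → M_{i+n}` such that `x^{[0]} = id` and
`x^{[m]} x^{[n]} = C(n+m, n) x^{[n+m]}`. -/
structure GrMod (k : Type) [CommRing k] (π : ℕ → k) where
  /-- the homogeneous components -/
  comp : ℤ → Type
  [grp : ∀ j, AddCommGroup (comp j)]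
  [mod : ∀ j, Module k (comp j)]
  /-- the action of `x^{[n]}`, from degree `i` to degree `j = i + n` -/
  act : ∀ (n : ℕ) {i j : ℤ}, i + n = j → comp i →ₗ[k] comp j
  act_zero : ∀ {i : ℤ} (h : i + (0 : ℕ) = i) (v : comp i), act 0 h v = v
  act_act : ∀ (n m : ℕ) {i j l : ℤ} (h : i + n = j) (h' : j + m = l)
    (h'' : i + (n + m : ℕ) = l) (v : comp i),
    act m h' (act n h v) = Cc π (n + m) n • act (n + m) h'' v

attribute [instance] GrMod.grp GrMod.mod

variable {π : ℕ → k}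

/-- Degree-preserving `D`-linear maps. -/
structure Hom (A B : GrMod k π) where
  /-- the homogeneous components -/
  map : ∀ j, A.comp j →ₗ[k] B.comp j
  comm : ∀ (n : ℕ) {i j : ℤ} (h : i + n = j) (v : A.comp i),
    map j (A.act n h v) = B.act n h (map i v)

/-- Isomorphism of graded `D`-modules. -/
def Isomorphic (A B : GrMod k π) : Prop := ∃ f : Hom A B, ∀ j, Function.Bijective (f.map j)

/-- A graded submodule. -/
structure Sub (A : GrMod k π) where
  /-- the homogeneous components -/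
  comp : ∀ j, Submodule k (A.comp j)
  act_mem : ∀ (n : ℕ) {i j : ℤ} (h : i + n = j) (v : A.comp i), v ∈ comp i → A.act n h v ∈ comp j

/-- The components of a graded submodule. -/
def Sub.S {A : GrMod k π} (U : Sub A) (j : ℤ) : Type := U.comp j

instance {A : GrMod k π} (U : Sub A) (j : ℤ) : AddCommGroup (U.S j) :=
  Submodule.addCommGroup (U.comp j)

instance {A : GrMod k π} (U : Sub A) (j : ℤ) : Module k (U.S j) := Submodule.module (U.comp j)

/-- The inclusion of a component of a graded submodule. -/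
def Sub.val {A : GrMod k π} (U : Sub A) (j : ℤ) : U.S j →ₗ[k] A.comp j := (U.comp j).subtype

lemma Sub.val_injective {A : GrMod k π} (U : Sub A) (j : ℤ) : Function.Injective (U.val j) :=
  (U.comp j).subtype_injective

/-- The action on a graded submodule. -/
def Sub.actS {A : GrMod k π} (U : Sub A) (n : ℕ) {i j : ℤ} (h : i + n = j) : U.S i →ₗ[k] U.S j :=
  (A.act n h).restrict (U.act_mem n h)

lemma Sub.val_actS {A : GrMod k π} (U : Sub A) (n : ℕ) {i j : ℤ} (h : i + n = j) (v : U.S i) :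
    U.val j (U.actS n h v) = A.act n h (U.val i v) := rfl

lemma Sub.actS_zero {A : GrMod k π} (U : Sub A) {i : ℤ} (h : i + (0 : ℕ) = i) (v : U.S i) :
    U.actS 0 h v = v := by
  apply U.val_injective
  rw [U.val_actS, A.act_zero]

lemma Sub.actS_act {A : GrMod k π} (U : Sub A) (n m : ℕ) {i j l : ℤ} (h : i + n = j)
    (h' : j + m = l) (h'' : i + (n + m : ℕ) = l) (v : U.S i) :
    U.actS m h' (U.actS n h v) = Cc π (n + m) n • U.actS (n + m) h'' v := by
  apply U.val_injective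
  rw [U.val_actS, U.val_actS, map_smul, U.val_actS, A.act_act n m h h' h'']

/-- A graded submodule as a graded module. -/
def Sub.toGrMod {A : GrMod k π} (U : Sub A) : GrMod k π where
  comp j := U.S j
  act := U.actS
  act_zero := U.actS_zero
  act_act := U.actS_act

/-- The components of the quotient by a graded submodule. -/
def Sub.Q {A : GrMod k π} (U : Sub A) (j : ℤ) : Type := A.comp j ⧸ U.comp j

instance {A : GrMod k π} (U : Sub A) (j : ℤ) : AddCommGroup (U.Q j) :=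
  Submodule.Quotient.addCommGroup (U.comp j)

instance {A : GrMod k π} (U : Sub A) (j : ℤ) : Module k (U.Q j) :=
  Submodule.Quotient.module (U.comp j)

/-- The projection to the quotient. -/
def Sub.proj {A : GrMod k π} (U : Sub A) (j : ℤ) : A.comp j →ₗ[k] U.Q j := Submodule.mkQ (U.comp j)

/-- The action on a quotient. -/
def Sub.actQ {A : GrMod k π} (U : Sub A) (n : ℕ) {i j : ℤ} (h : i + n = j) : U.Q i →ₗ[k] U.Q j :=
  Submodule.mapQ (U.comp i) (U.comp j) (A.act n h) (U.act_mem n h)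

lemma Sub.proj_surjective {A : GrMod k π} (U : Sub A) (j : ℤ) : Function.Surjective (U.proj j) :=
  Submodule.mkQ_surjective _

lemma Sub.actQ_proj {A : GrMod k π} (U : Sub A) (n : ℕ) {i j : ℤ} (h : i + n = j) (v : A.comp i) :
    U.actQ n h (U.proj i v) = U.proj j (A.act n h v) := rfl

lemma Sub.actQ_zero {A : GrMod k π} (U : Sub A) {i : ℤ} (h : i + (0 : ℕ) = i) (v : U.Q i) :
    U.actQ 0 h v = v := by
  obtain ⟨v, rfl⟩ := U.proj_surjective _ v
  rw [U.actQ_proj, A.act_zero h v]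

lemma Sub.actQ_act {A : GrMod k π} (U : Sub A) (n m : ℕ) {i j l : ℤ} (h : i + n = j)
    (h' : j + m = l) (h'' : i + (n + m : ℕ) = l) (v : U.Q i) :
    U.actQ m h' (U.actQ n h v) = Cc π (n + m) n • U.actQ (n + m) h'' v := by
  obtain ⟨v, rfl⟩ := U.proj_surjective _ v
  rw [U.actQ_proj, U.actQ_proj, U.actQ_proj, A.act_act n m h h' h'' v, map_smul]

/-- The quotient by a graded submodule. -/
def Sub.quotient {A : GrMod k π} (U : Sub A) : GrMod k π where
  comp j := U.Q j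
  act := U.actQ
  act_zero := U.actQ_zero
  act_act := U.actQ_act

lemma Hom.ker_mem {A B : GrMod k π} (f : Hom A B) (n : ℕ) {i j : ℤ} (h : i + n = j)
    (v : A.comp i) (hv : v ∈ LinearMap.ker (f.map i)) : A.act n h v ∈ LinearMap.ker (f.map j) := by
  rw [LinearMap.mem_ker] at hv ⊢
  rw [f.comm n h v, hv, map_zero]

/-- The kernel of a map. -/
def Hom.ker {A B : GrMod k π} (f : Hom A B) : Sub A := ⟨fun j => LinearMap.ker (f.map j), f.ker_mem⟩

lemma Hom.range_mem {A B : GrMod k π} (f : Hom A B) (n : ℕ) {i j : ℤ} (h : i + n = j)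
    (v : B.comp i) (hv : v ∈ LinearMap.range (f.map i)) :
    B.act n h v ∈ LinearMap.range (f.map j) := by
  obtain ⟨w, rfl⟩ := hv
  exact ⟨A.act n h w, f.comm n h w⟩

/-- The image of a map. -/
def Hom.range {A B : GrMod k π} (f : Hom A B) : Sub B :=
  ⟨fun j => LinearMap.range (f.map j), f.range_mem⟩

/-- The cokernel of a map. -/
def Hom.coker {A B : GrMod k π} (f : Hom A B) : GrMod k π := f.range.quotient

/-- The submodule `G` if `P` holds, and `0` otherwise. -/
def ifSub (G : Type) [AddCommGroup G] [Module k G] (P : Prop) : Submodule k G where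
  carrier := {v | P ∨ v = 0}
  zero_mem' := Or.inr rfl
  add_mem' := by
    rintro v w (h | rfl) (h' | rfl)
    · exact Or.inl h
    · exact Or.inl h
    · exact Or.inl h'
    · exact Or.inr (add_zero 0)
  smul_mem' := by
    rintro c v (h | rfl)
    · exact Or.inl h
    · exact Or.inr (smul_zero c)

lemma trunc_mem (n : ℤ) (A : GrMod k π) (m : ℕ) {i j : ℤ} (h : i + m = j) (v : A.comp i)
    (hv : v ∈ ifSub (k := k) (A.comp i) (n ≤ i)) : A.act m h v ∈ ifSub (k := k) (A.comp j) (n ≤ j) := by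
  rcases hv with h' | rfl
  · left; have : (0 : ℤ) ≤ m := Int.natCast_nonneg m; omega
  · right; exact map_zero (A.act m h)

/-- The truncation `τ_{≥ n}(A) = ⨁_{j ≥ n} A_j`, a graded submodule. -/
def trunc (n : ℤ) (A : GrMod k π) : Sub A := ⟨fun j => ifSub (A.comp j) (n ≤ j), trunc_mem n A⟩

lemma coeffs_add {ι : Type} {d : ι → ℤ} {j : ℤ} {a b : ι → k} (ha : ∀ t, j < d t → a t = 0)
    (hb : ∀ t, j < d t → b t = 0) : ∀ t, j < d t → (a + b) t = 0 := by
  intro t ht; simp [ha t ht, hb t ht]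

lemma coeffs_smul {ι : Type} {d : ι → ℤ} {j : ℤ} (c : k) {a : ι → k}
    (ha : ∀ t, j < d t → a t = 0) : ∀ t, j < d t → (c • a) t = 0 := by
  intro t ht; simp [ha t ht]

/-- Vectors with `c_t = 0` when `j < d_t`. -/
def coeffs (k : Type) [CommRing k] {ι : Type} (d : ι → ℤ) (j : ℤ) : Submodule k (ι → k) where
  carrier := {c | ∀ t, j < d t → c t = 0}
  zero_mem' := fun _ _ => rfl
  add_mem' := coeffs_add
  smul_mem' := coeffs_smul

/-- `x^{[n]}` sends `(c_t)` in degree `i` to `(C(j - d_t, n) c_t)` in degree `j = i + n`. -/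
def freeFun (π : ℕ → k) {ι : Type} (d : ι → ℤ) (n : ℕ) (j : ℤ) : (ι → k) →ₗ[k] (ι → k) where
  toFun c := fun t => Cc π (j - d t).toNat n * c t
  map_add' a b := by funext t; exact mul_add _ _ _
  map_smul' r a := by funext t; exact mul_left_comm _ _ _

end Defs

section Arith

variable {k : Type} [CommRing k] {π : ℕ → k}

lemma Cc_eq (π : ℕ → k) {n N m : ℕ} (h : n ≤ N) (_ : m ≤ n) :
    Cc π n m = ∏ d ∈ Finset.Icc 2 N, π d ^ (n / d - m / d - (n - m) / d) := by
  unfold Cc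
  apply Finset.prod_subset
  · intro d hd
    rw [Finset.mem_Icc] at hd ⊢
    omega
  · intro d hd hd'
    rw [Finset.mem_Icc] at hd hd'
    have h1 : n / d = 0 := Nat.div_eq_of_lt (by omega)
    rw [h1]
    simp

lemma Cc_zero (π : ℕ → k) (n : ℕ) : Cc π n 0 = 1 := by
  unfold Cc
  apply Finset.prod_eq_one
  intro d _
  rw [Nat.zero_div, Nat.sub_zero, Nat.sub_zero, Nat.sub_self, pow_zero]

/-- Associativity. -/
lemma Cc_assoc (π : ℕ → k) (a n m : ℕ) :
    Cc π (a + n + m) m * Cc π (a + n) n = Cc π (n + m) n * Cc π (a + n + m) (n + m) := by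
  rw [Cc_eq π (le_refl (a + n + m)) (by omega : m ≤ a + n + m),
    Cc_eq π (by omega : a + n ≤ a + n + m) (by omega : n ≤ a + n),
    Cc_eq π (by omega : n + m ≤ a + n + m) (by omega : n ≤ n + m),
    Cc_eq π (le_refl (a + n + m)) (by omega : n + m ≤ a + n + m),
    ← Finset.prod_mul_distrib, ← Finset.prod_mul_distrib]
  apply Finset.prod_congr rfl
  intro d _
  rw [← pow_add, ← pow_add]
  congr 1
  rw [show a + n + m - m = a + n by omega, show a + n - n = a by omega,
    show n + m - n = m by omega, show a + n + m - (n + m) = a by omega]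
  have h1 : (a + n) / d + m / d ≤ (a + n + m) / d := Nat.div_add_div_le_add_div
  have h2 : a / d + n / d ≤ (a + n) / d := Nat.div_add_div_le_add_div
  have h3 : n / d + m / d ≤ (n + m) / d := Nat.div_add_div_le_add_div
  have h4 : a / d + (n + m) / d ≤ (a + (n + m)) / d := Nat.div_add_div_le_add_div
  rw [← add_assoc] at h4
  omega

/-- Symmetry of the multinomial coefficients. -/
lemma Cc_multi (π : ℕ → k) (a n l : ℕ) :
    Cc π (a + n + l) n * Cc π (a + l) l = Cc π (a + n + l) l * Cc π (a + n) n := by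
  rw [Cc_eq π (le_refl (a + n + l)) (by omega : n ≤ a + n + l),
    Cc_eq π (by omega : a + l ≤ a + n + l) (by omega : l ≤ a + l),
    Cc_eq π (le_refl (a + n + l)) (by omega : l ≤ a + n + l),
    Cc_eq π (by omega : a + n ≤ a + n + l) (by omega : n ≤ a + n),
    ← Finset.prod_mul_distrib, ← Finset.prod_mul_distrib]
  apply Finset.prod_congr rfl
  intro d _
  rw [← pow_add, ← pow_add]
  congr 1
  rw [show a + n + l - n = a + l by omega, show a + l - l = a by omega,
    show a + n + l - l = a + n by omega, show a + n - n = a by omega]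
  have h1 : (a + n) / d + l / d ≤ (a + n + l) / d := Nat.div_add_div_le_add_div
  have h2 : a / d + n / d ≤ (a + n) / d := Nat.div_add_div_le_add_div
  have h3 : a / d + l / d ≤ (a + l) / d := Nat.div_add_div_le_add_div
  have h4 : (a + l) / d + n / d ≤ (a + l + n) / d := Nat.div_add_div_le_add_div
  rw [show a + l + n = a + n + l by omega] at h4
  omega

end Arith

section Defs2

variable {k : Type} [CommRing k]

lemma freeFun_mem (π : ℕ → k) {ι : Type} (d : ι → ℤ) (n : ℕ) {i j : ℤ} (h : i + n = j)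
    (c : ι → k) (hc : c ∈ coeffs k d i) : freeFun π d n j c ∈ coeffs k d j := by
  intro t ht
  have : c t = 0 := hc t (by have : (0 : ℤ) ≤ n := Int.natCast_nonneg n; omega)
  show Cc π (j - d t).toNat n * c t = 0
  rw [this, mul_zero]

/-- The components of a free module: vectors with `c_t = 0` when `j < d_t`. -/
def FC (k : Type) [CommRing k] {ι : Type} (d : ι → ℤ) (j : ℤ) : Type := coeffs k d j

instance {ι : Type} (d : ι → ℤ) (j : ℤ) : AddCommGroup (FC k d j) :=
  Submodule.addCommGroup (coeffs k d j)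

instance {ι : Type} (d : ι → ℤ) (j : ℤ) : Module k (FC k d j) := Submodule.module (coeffs k d j)

/-- The vector of coefficients. -/
def FC.val {ι : Type} (d : ι → ℤ) (j : ℤ) : FC k d j →ₗ[k] (ι → k) := (coeffs k d j).subtype

lemma FC.val_injective {ι : Type} (d : ι → ℤ) (j : ℤ) :
    Function.Injective (FC.val (k := k) d j) := (coeffs k d j).subtype_injective

lemma FC.val_eq_zero {ι : Type} {d : ι → ℤ} {j : ℤ} (v : FC k d j) {t : ι} (h : j < d t) :
    FC.val d j v t = 0 := v.2 t h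

/-- The action on a free module. -/
def freeAct (π : ℕ → k) {ι : Type} (d : ι → ℤ) (n : ℕ) {i j : ℤ} (h : i + n = j) :
    FC k d i →ₗ[k] FC k d j := (freeFun π d n j).restrict (freeFun_mem π d n h)

lemma val_freeAct (π : ℕ → k) {ι : Type} (d : ι → ℤ) (n : ℕ) {i j : ℤ} (h : i + n = j)
    (v : FC k d i) (t : ι) :
    FC.val d j (freeAct π d n h v) t = Cc π (j - d t).toNat n * FC.val d i v t := rfl

lemma freeAct_zero (π : ℕ → k) {ι : Type} (d : ι → ℤ) {i : ℤ} (h : i + (0 : ℕ) = i)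
    (v : FC k d i) : freeAct π d 0 h v = v := by
  apply FC.val_injective
  funext t
  rw [val_freeAct, Cc_zero, one_mul]

lemma freeAct_act (π : ℕ → k) {ι : Type} (d : ι → ℤ) (n m : ℕ) {i j l : ℤ} (h : i + n = j)
    (h' : j + m = l) (h'' : i + (n + m : ℕ) = l) (v : FC k d i) :
    freeAct π d m h' (freeAct π d n h v) = Cc π (n + m) n • freeAct π d (n + m) h'' v := by
  apply FC.val_injective
  funext t
  rw [val_freeAct, val_freeAct, map_smul, Pi.smul_apply, smul_eq_mul, val_freeAct]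
  by_cases ht : i < d t
  · rw [FC.val_eq_zero v ht]
    simp
  · push Not at ht
    obtain ⟨a, ha⟩ := Int.eq_ofNat_of_zero_le (sub_nonneg.mpr ht)
    have h1 : (j - d t).toNat = a + n := by omega
    have h2 : (l - d t).toNat = a + n + m := by omega
    rw [h1, h2]
    linear_combination (FC.val d i v t) * Cc_assoc π a n m

/-- The finite direct sum `⨁_t D[-d_t]` of shifted free modules. Its component of degree `j` has the
basis `x^{[j - d_t]} e_t` for the `t` with `d_t ≤ j`; we write an element as its vector of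
coefficients `(c_t)`, with `c_t = 0` when `j < d_t`. -/
def free (π : ℕ → k) {ι : Type} (d : ι → ℤ) : GrMod k π where
  comp j := FC k d j
  act := freeAct π d
  act_zero := freeAct_zero π d
  act_act := freeAct_act π d

variable {π : ℕ → k}

/-- Finitely presented graded modules: the cokernels of maps between finite direct sums of shifted
free modules. -/
def IsFinitelyPresented (N : GrMod k π) : Prop :=
  ∃ (p q : ℕ) (d : Fin p → ℤ) (e : Fin q → ℤ) (f : Hom (free π e) (free π d)), Isomorphic f.coker N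

/-- Nearly finitely presented graded modules. -/
def IsNfp (M : GrMod k π) : Prop :=
  (∀ j, Module.Finite k (M.comp j)) ∧ (∃ j₀ : ℤ, ∀ j < j₀, Subsingleton (M.comp j)) ∧
    ∃ N : GrMod k π, IsFinitelyPresented N ∧ ∃ n : ℤ, Isomorphic (trunc n M).toGrMod (trunc n N).toGrMod

/-- Q1: if `k` is noetherian and its Jacobson radical contains `π_n` for infinitely many `n`, then
kernels and cokernels of maps of nfp modules are nfp. -/
def Q1 : Prop :=
  ∀ (k : Type) [CommRing k] [IsNoetherianRing k] (π : ℕ → k), Admissible π →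
    {n | 2 ≤ n ∧ π n ∈ Ring.jacobson k}.Infinite →
    ∀ (M N : GrMod k π) (f : Hom M N), IsNfp M → IsNfp N → IsNfp f.ker.toGrMod ∧ IsNfp f.coker

end Defs2

/-! ### General lemmas -/

section General

variable {k : Type} [CommRing k] {π : ℕ → k}

lemma Isomorphic.refl (A : GrMod k π) : Isomorphic A A :=
  ⟨⟨fun _ => LinearMap.id, fun _ _ _ _ _ => rfl⟩, fun _ => Function.bijective_id⟩

lemma Isomorphic.symm {A B : GrMod k π} (h : Isomorphic A B) : Isomorphic B A := by
  obtain ⟨f, hf⟩ := h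
  let e : ∀ j, A.comp j ≃ₗ[k] B.comp j := fun j => LinearEquiv.ofBijective (f.map j) (hf j)
  refine ⟨⟨fun j => ((e j).symm : B.comp j →ₗ[k] A.comp j), ?_⟩, fun j => (e j).symm.bijective⟩
  intro n i j h v
  apply (e j).injective
  have h1 : (e j) ((e j).symm (B.act n h v)) = B.act n h v := (e j).apply_symm_apply _
  have h2 : (e j) (A.act n h ((e i).symm v)) = B.act n h v := by
    have h3 : (e j) (A.act n h ((e i).symm v)) = B.act n h ((e i) ((e i).symm v)) :=
      f.comm n h _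
    rw [h3, (e i).apply_symm_apply]
  exact h1.trans h2.symm

lemma fp_free {p : ℕ} (d : Fin p → ℤ) : IsFinitelyPresented (free π d) := by
  let e : Fin 0 → ℤ := fun _ => 0
  let f : Hom (free π e) (free π d) := ⟨fun _ => 0, fun _ _ _ _ _ => by
    rw [LinearMap.zero_apply, LinearMap.zero_apply, map_zero]⟩
  refine ⟨p, 0, d, e, f, Isomorphic.symm ?_⟩
  refine ⟨⟨fun j => Submodule.mkQ _, fun _ _ _ _ _ => rfl⟩, fun j => ⟨?_, Submodule.mkQ_surjective _⟩⟩
  rw [← LinearMap.ker_eq_bot]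
  show LinearMap.ker (Submodule.mkQ (LinearMap.range (f.map j))) = ⊥
  rw [Submodule.ker_mkQ]
  exact LinearMap.range_zero

lemma trunc_trunc (n : ℤ) (A : GrMod k π) :
    Isomorphic (trunc n (trunc n A).toGrMod).toGrMod (trunc n A).toGrMod := by
  refine ⟨⟨fun j => Submodule.subtype _, fun _ _ _ _ _ => rfl⟩, fun j => ⟨?_, ?_⟩⟩
  · exact Submodule.subtype_injective _
  · intro w
    rcases w.2 with h | h
    · exact ⟨⟨w, Or.inl h⟩, rfl⟩
    · have hw : w = 0 := Subtype.ext h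
      exact ⟨0, by rw [hw, map_zero]⟩

/-- The inclusion of a graded submodule. -/
def Sub.incl {A : GrMod k π} (U : Sub A) (m : ℤ) : U.toGrMod.comp m →ₗ[k] A.comp m :=
  (U.comp m).subtype

lemma Sub.incl_injective {A : GrMod k π} (U : Sub A) (m : ℤ) : Function.Injective (U.incl m) :=
  (U.comp m).subtype_injective

lemma Sub.incl_act {A : GrMod k π} (U : Sub A) (n : ℕ) {i j : ℤ} (h : i + n = j)
    (v : U.toGrMod.comp i) : U.incl j (U.toGrMod.act n h v) = A.act n h (U.incl i v) := rfl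

lemma trunc_exists {A : GrMod k π} {n m : ℤ} (hm : n ≤ m) (v : A.comp m) :
    ∃ V : (trunc n A).toGrMod.comp m, (trunc n A).incl m V = v := ⟨⟨v, Or.inl hm⟩, rfl⟩

/-- The vector of coefficients. -/
def fincl {ι : Type} (π : ℕ → k) (d : ι → ℤ) (m : ℤ) : (free π d).comp m →ₗ[k] (ι → k) :=
  (coeffs k d m).subtype

lemma fincl_injective {ι : Type} (d : ι → ℤ) (m : ℤ) : Function.Injective (fincl π d m) :=
  (coeffs k d m).subtype_injective

lemma fincl_act {ι : Type} (d : ι → ℤ) (n : ℕ) {i j : ℤ} (h : i + n = j)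
    (v : (free π d).comp i) (t : ι) :
    fincl π d j ((free π d).act n h v) t = Cc π (j - d t).toNat n * fincl π d i v t := rfl

lemma fincl_zero {ι : Type} (d : ι → ℤ) {m : ℤ} (v : (free π d).comp m) {t : ι} (h : m < d t) :
    fincl π d m v t = 0 := v.2 t h

lemma fincl_exists {ι : Type} (d : ι → ℤ) (m : ℤ) (c : ι → k) (hc : ∀ t, m < d t → c t = 0) :
    ∃ v : (free π d).comp m, fincl π d m v = c := ⟨⟨c, hc⟩, rfl⟩

/-- A linear map on vectors of coefficients, as a map between components of free modules. -/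
def restr {ι κ : Type} (π : ℕ → k) (d : ι → ℤ) (e : κ → ℤ) (j : ℤ) (g : (ι → k) →ₗ[k] (κ → k))
    (h : ∀ c ∈ coeffs k d j, g c ∈ coeffs k e j) : (free π d).comp j →ₗ[k] (free π e).comp j :=
  g.restrict h

/-- The projection to the cokernel. -/
def Hom.proj {A B : GrMod k π} (f : Hom A B) (j : ℤ) : B.comp j →ₗ[k] f.coker.comp j :=
  Submodule.mkQ _

lemma fp_generators {N : GrMod k π} (hN : IsFinitelyPresented N) :
    ∃ (p : ℕ) (d : Fin p → ℤ) (y : Fin p → ∀ m : ℤ, N.comp m),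
      (∀ (t : Fin p) (l : ℕ) (m j : ℤ) (h : m + l = j), d t ≤ m →
        N.act l h (y t m) = Cc π (j - d t).toNat l • y t j) ∧
      ∀ (m : ℤ) (v : N.comp m), ∃ c : Fin p → k, v = ∑ t, c t • y t m := by
  classical
  obtain ⟨p, q, d, e, f, g, hg⟩ := hN
  have hE : ∀ (t : Fin p) (m : ℤ), ∃ v : (free π d).comp m,
      fincl π d m v = Pi.single t (if d t ≤ m then 1 else 0) := by
    intro t m
    apply fincl_exists
    intro t' ht'
    by_cases h : t' = t
    · rw [h] at ht' ⊢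
      rw [Pi.single_eq_same, if_neg (not_le.mpr ht')]
    · exact Pi.single_eq_of_ne h _
  choose E hE using hE
  let Q : ∀ m, (free π d).comp m →ₗ[k] f.coker.comp m := fun m => Submodule.mkQ _
  have hQ : ∀ (l : ℕ) (m j : ℤ) (h : m + l = j) (v : (free π d).comp m),
      f.coker.act l h (Q m v) = Q j ((free π d).act l h v) := fun _ _ _ _ _ => rfl
  have hQs : ∀ m, Function.Surjective (Q m) := fun m => Submodule.mkQ_surjective _
  refine ⟨p, d, fun t m => g.map m (Q m (E t m)), ?_, ?_⟩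
  · intro t l m j h hd
    have hd' : d t ≤ j := by
      have : (0 : ℤ) ≤ l := Int.natCast_nonneg l
      omega
    have h1 : (free π d).act l h (E t m) = Cc π (j - d t).toNat l • E t j := by
      apply fincl_injective d j
      funext t'
      rw [fincl_act, hE, map_smul, hE, Pi.smul_apply, if_pos hd, if_pos hd', smul_eq_mul]
      by_cases h' : t' = t
      · rw [h']
      · rw [Pi.single_eq_of_ne h', mul_zero, mul_zero]
    show N.act l h (g.map m (Q m (E t m))) = Cc π (j - d t).toNat l • g.map j (Q j (E t j))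
    rw [← g.comm l h, hQ, h1, map_smul, map_smul]
  · intro m v
    obtain ⟨w, rfl⟩ := (hg m).2 v
    obtain ⟨c, rfl⟩ := hQs m w
    refine ⟨fincl π d m c, ?_⟩
    have h1 : c = ∑ t, fincl π d m c t • E t m := by
      apply fincl_injective d m
      rw [map_sum]
      funext t
      rw [Finset.sum_apply, Finset.sum_eq_single t]
      · rw [map_smul, hE, Pi.smul_apply, Pi.single_eq_same, smul_eq_mul]
        split_ifs with h
        · rw [mul_one]
        · rw [mul_zero]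
          exact fincl_zero d c (not_le.mp h)
      · intro t' _ ht'
        rw [map_smul, hE, Pi.smul_apply, Pi.single_eq_of_ne ht'.symm, smul_zero]
      · intro h
        exact absurd (Finset.mem_univ t) h
    conv_lhs => rw [h1]
    rw [map_sum, map_sum]
    refine Finset.sum_congr rfl fun t _ => ?_
    rw [map_smul, map_smul]

lemma nfp_generators {K : GrMod k π} (hK : IsNfp K) :
    ∃ (n : ℤ) (p : ℕ) (d : Fin p → ℤ) (z : Fin p → ∀ m : ℤ, K.comp m),
      (∀ (t : Fin p) (l : ℕ) (m j : ℤ) (h : m + l = j), n ≤ m → d t ≤ m →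
        K.act l h (z t m) = Cc π (j - d t).toNat l • z t j) ∧
      ∀ (m : ℤ), n ≤ m → ∀ v : K.comp m, ∃ c : Fin p → k, v = ∑ t, c t • z t m := by
  obtain ⟨-, -, N, hN, n, φ, hφ⟩ := hK
  obtain ⟨p, d, y, hy1, hy2⟩ := fp_generators hN
  have hex : ∀ (t : Fin p) (m : ℤ) (hm : n ≤ m), ∃ Z : (trunc n K).toGrMod.comp m,
      (trunc n N).incl m (φ.map m Z) = y t m := by
    intro t m hm
    obtain ⟨Y, hY⟩ := trunc_exists hm (y t m)
    obtain ⟨Z, hZ⟩ := (hφ m).2 Y
    exact ⟨Z, by rw [hZ, hY]⟩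
  choose Z hZ using hex
  have hz : ∃ z : Fin p → ∀ m : ℤ, K.comp m,
      ∀ t m (hm : n ≤ m), z t m = (trunc n K).incl m (Z t m hm) :=
    ⟨fun t m => if hm : n ≤ m then (trunc n K).incl m (Z t m hm) else 0,
      fun t m hm => dif_pos hm⟩
  obtain ⟨z, hz⟩ := hz
  refine ⟨n, p, d, z, ?_, ?_⟩
  · intro t l m j h hm hd
    have hj : n ≤ j := by
      have : (0 : ℤ) ≤ l := Int.natCast_nonneg l
      omega
    rw [hz t m hm, hz t j hj, ← Sub.incl_act, ← map_smul]
    congr 1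
    apply (hφ j).1
    apply Sub.incl_injective
    rw [φ.comm, Sub.incl_act, hZ, map_smul, map_smul, hZ]
    exact hy1 t l m j h hd
  · intro m hm v
    obtain ⟨V, rfl⟩ := trunc_exists hm v
    obtain ⟨c, hc⟩ := hy2 m ((trunc n N).incl m (φ.map m V))
    refine ⟨c, ?_⟩
    have h1 : V = ∑ t, c t • Z t m hm := by
      apply (hφ m).1
      apply Sub.incl_injective
      rw [hc, map_sum, map_sum]
      refine Finset.sum_congr rfl fun t _ => ?_
      rw [map_smul, map_smul, hZ]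
    conv_lhs => rw [h1]
    rw [map_sum]
    refine Finset.sum_congr rfl fun t _ => ?_
    rw [map_smul, hz t m hm]

end General

/-! ### The map -/

section Map

variable {k : Type} [CommRing k] (π : ℕ → k)

/-- Multiplication by a constant on `k^1`. -/
def mulc (a : k) : (Fin 1 → k) →ₗ[k] (Fin 1 → k) := a • LinearMap.id

lemma relMap_mem (j : ℤ) (c : Fin 1 → k) (hc : c ∈ coeffs k (fun _ : Fin 1 => (1 : ℤ)) j) :
    mulc (Cc π j.toNat 1) c ∈ coeffs k (fun _ : Fin 1 => (0 : ℤ)) j := by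
  intro t ht
  show Cc π j.toNat 1 * c t = 0
  have h0 : j < 0 := ht
  rw [hc t (show j < 1 by omega), mul_zero]

/-- Multiplication by `x^{[1]}`, in degree `j`. -/
def relMap (j : ℤ) : (free π (fun _ : Fin 1 => (1 : ℤ))).comp j →ₗ[k]
    (free π (fun _ : Fin 1 => (0 : ℤ))).comp j :=
  restr π _ _ j (mulc (Cc π j.toNat 1)) (relMap_mem π j)

lemma relMap_comm (n : ℕ) {i j : ℤ} (h : i + n = j)
    (v : (free π (fun _ : Fin 1 => (1 : ℤ))).comp i) :
    relMap π j ((free π (fun _ : Fin 1 => (1 : ℤ))).act n h v) =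
      (free π (fun _ : Fin 1 => (0 : ℤ))).act n h (relMap π i v) := by
  apply fincl_injective
  funext t
  show Cc π j.toNat 1 * (Cc π (j - 1).toNat n * fincl π _ i v t) =
    Cc π (j - 0).toNat n * (Cc π i.toNat 1 * fincl π _ i v t)
  by_cases hi : i < 1
  · have h0 : fincl π _ i v t = 0 := fincl_zero _ v hi
    rw [h0]
    ring
  · obtain ⟨a, ha⟩ := Int.eq_ofNat_of_zero_le (show 0 ≤ i - 1 by omega)
    rw [show j.toNat = a + 1 + n by omega, show (j - 1).toNat = a + n by omega,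
      show (j - 0).toNat = a + 1 + n by omega, show i.toNat = a + 1 by omega]
    linear_combination (fincl π _ i v t) * Cc_multi π a 1 n

/-- The relation `x^{[1]}` of `D/(x^{[1]})`. -/
def rel : Hom (free π (fun _ : Fin 1 => (1 : ℤ))) (free π (fun _ : Fin 1 => (0 : ℤ))) :=
  ⟨relMap π, relMap_comm π⟩

/-- The module `D/(x^{[1]})`. -/
def NN : GrMod k π := (rel π).coker

/-- The module `D ⊕ D`. -/
def DD : GrMod k π := free π (fun _ : Fin 2 => (0 : ℤ))

/-- The module `τ_{≥ 1}(D ⊕ D)`. -/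
def MM : GrMod k π := (trunc 1 (DD π)).toGrMod

variable (u : ℕ → k)

/-- The map `(c, d) ↦ c + u_j d`. -/
def fval (j : ℤ) (c : Fin 2 → k) : Fin 1 → k := fun _ => c 0 + u j.toNat * c 1

lemma fval_add (j : ℤ) (a b : Fin 2 → k) : fval u j (a + b) = fval u j a + fval u j b := by
  funext t
  simp only [fval, Pi.add_apply]
  ring

lemma fval_smul (j : ℤ) (r : k) (a : Fin 2 → k) : fval u j (r • a) = r • fval u j a := by
  funext t
  simp only [fval, Pi.smul_apply, smul_eq_mul]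
  ring

/-- The map `(c, d) ↦ c + u_j d` as a linear map. -/
def ffun (j : ℤ) : (Fin 2 → k) →ₗ[k] (Fin 1 → k) := ⟨⟨fval u j, fval_add u j⟩, fval_smul u j⟩

lemma ffun_apply (j : ℤ) (c : Fin 2 → k) (t : Fin 1) : ffun u j c t = c 0 + u j.toNat * c 1 := rfl

lemma ffun_mem (j : ℤ) (c : Fin 2 → k) (hc : c ∈ coeffs k (fun _ : Fin 2 => (0 : ℤ)) j) :
    ffun u j c ∈ coeffs k (fun _ : Fin 1 => (0 : ℤ)) j := by
  intro t ht
  rw [ffun_apply, hc 0 ht, hc 1 ht, mul_zero, add_zero]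

/-- The map `(c, d) x^{[j]} ↦ (c + u_j d) x^{[j]}` from `τ_{≥ 1}(D ⊕ D)` to `D`, in degree `j`. -/
def fmap (j : ℤ) : (MM π).comp j →ₗ[k] (free π (fun _ : Fin 1 => (0 : ℤ))).comp j :=
  (restr π _ _ j (ffun u j) (ffun_mem u j)).comp ((trunc 1 (DD π)).incl j)

lemma fincl_fmap (j : ℤ) (v : (MM π).comp j) (t : Fin 1) :
    fincl π _ j (fmap π u j v) t = fincl π _ j ((trunc 1 (DD π)).incl j v) 0 +
      u j.toNat * fincl π _ j ((trunc 1 (DD π)).incl j v) 1 := rfl

lemma fincl_rel (j : ℤ) (v : (free π (fun _ : Fin 1 => (1 : ℤ))).comp j) (t : Fin 1) :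
    fincl π _ j ((rel π).map j v) t = Cc π j.toNat 1 * fincl π _ j v t := rfl

lemma mem_range_rel {j : ℤ} (hj : 1 ≤ j) (w : (free π (fun _ : Fin 1 => (0 : ℤ))).comp j) :
    w ∈ LinearMap.range ((rel π).map j) ↔ Cc π j.toNat 1 ∣ fincl π _ j w 0 := by
  constructor
  · rintro ⟨v, rfl⟩
    rw [fincl_rel]
    exact dvd_mul_right _ _
  · rintro ⟨q, hq⟩
    obtain ⟨v, hv⟩ := fincl_exists (π := π) (fun _ : Fin 1 => (1 : ℤ)) j (fun _ => q)
      (fun t ht => absurd ht (not_lt.mpr hj))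
    refine ⟨v, ?_⟩
    apply fincl_injective
    funext t
    rw [fincl_rel, hv, Subsingleton.elim t 0, hq]

/-- The component of degree `j` of the map `τ_{≥ 1}(D ⊕ D) → D/(x^{[1]})`. -/
def fq (j : ℤ) : (MM π).comp j →ₗ[k] (NN π).comp j :=
  ((rel π).proj j).comp (fmap π u j)

variable {u}

lemma fq_comm (hu : ∀ m n : ℕ, 1 ≤ m → Cc π m 1 ∣ u (m + n) - u m) (n : ℕ) {i j : ℤ}
    (h : i + n = j) (v : (MM π).comp i) :
    fq π u j ((MM π).act n h v) = (NN π).act n h (fq π u i v) := by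
  by_cases hi : i < 1
  · have hv : v = 0 := by
      rcases v.2 with h' | h'
      · exact absurd h' (not_le.mpr hi)
      · exact Subtype.ext h'
    have h1 : (MM π).act n h 0 = 0 := map_zero _
    have h2 : (NN π).act n h 0 = 0 := map_zero _
    have h3 : fq π u j 0 = 0 := map_zero _
    have h4 : fq π u i 0 = 0 := map_zero _
    rw [hv, h1, h3, h4, h2]
  · obtain ⟨a, ha⟩ := Int.eq_ofNat_of_zero_le (show 0 ≤ i - 1 by omega)
    show (Submodule.Quotient.mk (fmap π u j ((MM π).act n h v)) : (NN π).comp j) =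
      Submodule.Quotient.mk ((free π (fun _ : Fin 1 => (0 : ℤ))).act n h (fmap π u i v))
    apply (Submodule.Quotient.eq _).mpr
    refine (mem_range_rel π (by omega : 1 ≤ j) _).mpr ?_
    rw [map_sub, Pi.sub_apply, fincl_fmap, fincl_act, fincl_fmap]
    have e : (trunc 1 (DD π)).incl j ((MM π).act n h v) =
      (DD π).act n h ((trunc 1 (DD π)).incl i v) := rfl
    rw [e]
    unfold DD
    rw [fincl_act, fincl_act]
    rw [show j.toNat = a + 1 + n by omega, show (j - 0).toNat = a + 1 + n by omega,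
      show i.toNat = a + 1 by omega]
    obtain ⟨q, hq⟩ := hu (a + 1) n (by omega)
    have h1 := Cc_multi π a 1 n
    refine ⟨Cc π (a + n) n * q *
      (fincl π (fun _ : Fin 2 => (0 : ℤ)) i ((trunc 1 (DD π)).incl i v) 1), ?_⟩
    unfold DD
    generalize fincl π (fun _ : Fin 2 => (0 : ℤ)) i
      ((trunc 1 (free π (fun _ : Fin 2 => (0 : ℤ)))).incl i v) 0 = c0
    generalize fincl π (fun _ : Fin 2 => (0 : ℤ)) i
      ((trunc 1 (free π (fun _ : Fin 2 => (0 : ℤ)))).incl i v) 1 = c1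
    linear_combination (Cc π (a + 1 + n) n * c1) * hq - q * c1 * h1

/-- The map `f : τ_{≥ 1}(D ⊕ D) → D/(x^{[1]})`. -/
def ff (hu : ∀ m n : ℕ, 1 ≤ m → Cc π m 1 ∣ u (m + n) - u m) : Hom (MM π) (NN π) :=
  ⟨fq π u, fq_comm π hu⟩

lemma ff_eq_zero_iff (hu : ∀ m n : ℕ, 1 ≤ m → Cc π m 1 ∣ u (m + n) - u m) {j : ℤ} (hj : 1 ≤ j)
    (v : (MM π).comp j) : (ff π hu).map j v = 0 ↔ Cc π j.toNat 1 ∣
      fincl π _ j ((trunc 1 (DD π)).incl j v) 0 +
        u j.toNat * fincl π _ j ((trunc 1 (DD π)).incl j v) 1 := by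
  rw [← fincl_fmap π u j v 0, ← mem_range_rel π hj]
  exact Submodule.Quotient.mk_eq_zero _

/-- The kernel of `f`. -/
def KK (hu : ∀ m n : ℕ, 1 ≤ m → Cc π m 1 ∣ u (m + n) - u m) : GrMod k π := (ff π hu).ker.toGrMod

/-- The vector of coefficients of an element of the kernel. -/
def kincl (hu : ∀ m n : ℕ, 1 ≤ m → Cc π m 1 ∣ u (m + n) - u m) (j : ℤ) :
    (KK π hu).comp j →ₗ[k] (Fin 2 → k) :=
  ((fincl π (fun _ : Fin 2 => (0 : ℤ)) j).comp ((trunc 1 (DD π)).incl j)).comp
    ((ff π hu).ker.incl j)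

lemma kincl_act (hu : ∀ m n : ℕ, 1 ≤ m → Cc π m 1 ∣ u (m + n) - u m) (n : ℕ) {i j : ℤ}
    (h : i + n = j) (v : (KK π hu).comp i) :
    kincl π hu j ((KK π hu).act n h v) = Cc π j.toNat n • kincl π hu i v := by
  funext t
  show Cc π (j - 0).toNat n * kincl π hu i v t = Cc π j.toNat n * kincl π hu i v t
  rw [sub_zero]

lemma kincl_mem (hu : ∀ m n : ℕ, 1 ≤ m → Cc π m 1 ∣ u (m + n) - u m) {j : ℤ} (hj : 1 ≤ j)
    (v : (KK π hu).comp j) :
    Cc π j.toNat 1 ∣ kincl π hu j v 0 + u j.toNat * kincl π hu j v 1 := by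
  have h : (ff π hu).map j ((ff π hu).ker.incl j v) = 0 := v.2
  exact (ff_eq_zero_iff π hu hj _).mp h

lemma kincl_exists (hu : ∀ m n : ℕ, 1 ≤ m → Cc π m 1 ∣ u (m + n) - u m) {j : ℤ} (hj : 1 ≤ j)
    (c : Fin 2 → k) (hc : Cc π j.toNat 1 ∣ c 0 + u j.toNat * c 1) :
    ∃ v : (KK π hu).comp j, kincl π hu j v = c := by
  obtain ⟨v, hv⟩ := fincl_exists (π := π) (fun _ : Fin 2 => (0 : ℤ)) j c
    (fun t ht => absurd ht (by
      show ¬ j < 0
      omega))
  obtain ⟨w, hw⟩ := trunc_exists (A := DD π) (n := 1) hj v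
  have h : (ff π hu).map j w = 0 := (ff_eq_zero_iff π hu hj w).mpr (by
    rw [hw, hv]
    exact hc)
  refine ⟨⟨w, h⟩, ?_⟩
  show fincl π _ j ((trunc 1 (DD π)).incl j w) = c
  rw [hw, hv]

/-- The coefficient form of the generators of the kernel, if it is nfp. -/
lemma extract (hu : ∀ m n : ℕ, 1 ≤ m → Cc π m 1 ∣ u (m + n) - u m) (hK : IsNfp (KK π hu)) :
    ∃ (n₀ p : ℕ) (d : Fin p → ℤ) (ζ : Fin p → ℕ → (Fin 2 → k)),
      (∀ t m, n₀ ≤ m → Cc π m 1 ∣ ζ t m 0 + u m * ζ t m 1) ∧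
      (∀ t (l m : ℕ), n₀ ≤ m → d t ≤ m →
        Cc π (m + l) l • ζ t m = Cc π ((m + l : ℕ) - d t : ℤ).toNat l • ζ t (m + l)) ∧
      ∀ m, n₀ ≤ m → ∀ c : Fin 2 → k, Cc π m 1 ∣ c 0 + u m * c 1 →
        ∃ a : Fin p → k, c = ∑ t, a t • ζ t m := by
  obtain ⟨n, p, d, z, hz1, hz2⟩ := nfp_generators hK
  refine ⟨n.toNat + 1, p, d, fun t m => kincl π hu (m : ℤ) (z t (m : ℤ)), ?_, ?_, ?_⟩
  · intro t m hm
    have h := kincl_mem π hu (j := (m : ℤ)) (by omega) (z t (m : ℤ))
    rwa [Int.toNat_natCast] at h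
  · intro t l m hm hd
    have h1 := hz1 t l (m : ℤ) ((m + l : ℕ) : ℤ) (by push_cast; rfl) (by omega) hd
    have h2 := congrArg (kincl π hu ((m + l : ℕ) : ℤ)) h1
    rw [kincl_act, Int.toNat_natCast, map_smul] at h2
    exact h2
  · intro m hm c hc
    obtain ⟨v, hv⟩ := kincl_exists π hu (j := (m : ℤ)) (by omega) c (by rwa [Int.toNat_natCast])
    obtain ⟨a, ha⟩ := hz2 (m : ℤ) (by omega) v
    refine ⟨a, ?_⟩
    rw [← hv, ha, map_sum]
    refine Finset.sum_congr rfl fun t _ => ?_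
    rw [map_smul]

end Map

/-! ### The kernel is not nfp -/

section Abstract

variable {k : Type} [CommRing k] [IsDomain k] {π : ℕ → k} {u : ℕ → k}

/-- If `C(2^(N+1) + e, 2^N) = 2` for `0 ≤ e < 2^N`, `C(2^(N+1) - b, 2^N) = 1` for `1 ≤ b ≤ 2^N`, and
`c + u_m d` is not divisible by `C(m, 1)` for all large powers `m` of `2`, then the kernel is not
nfp. -/
lemma not_nfp (hu : ∀ m n : ℕ, 1 ≤ m → Cc π m 1 ∣ u (m + n) - u m) (h20 : (2 : k) ≠ 0)
    (h2u : ¬ IsUnit (2 : k))
    (hC2 : ∀ N e : ℕ, e < 2 ^ N → Cc π (2 ^ N + (2 ^ N + e)) (2 ^ N) = 2)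
    (hC1 : ∀ N e : ℕ, e < 2 ^ N → Cc π (2 ^ N + e) (2 ^ N) = 1)
    (hirr : ∀ (a b : k) (N₀ : ℕ), (∀ N, N₀ ≤ N → Cc π (2 ^ N) 1 ∣ a + u (2 ^ N) * b) → b = 0) :
    ¬ IsNfp (KK π hu) := by
  intro hK
  obtain ⟨n₀, p, d, ζ, h1, h2, h3⟩ := extract π hu hK
  -- a common bound
  obtain ⟨B, hB⟩ : ∃ B : ℕ, ∀ t, (d t).natAbs < B :=
    ⟨(Finset.univ.sup fun t => (d t).natAbs) + 1, fun t =>
      Nat.lt_succ_of_le (Finset.le_sup (f := fun t => (d t).natAbs) (Finset.mem_univ t))⟩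
  have hpow : ∀ N : ℕ, N < 2 ^ N := fun N => Nat.lt_two_pow_self
  set M := n₀ + B with hM
  have hstep : ∀ t N, M ≤ N → (0 < d t ∧ ζ t (2 ^ (N + 1)) = (2 : k) • ζ t (2 ^ N)) ∨
      (d t ≤ 0 ∧ ζ t (2 ^ (N + 1)) = ζ t (2 ^ N)) := by
    intro t N hN
    have hN' := hpow N
    have hBt := hB t
    have h4 := h2 t (2 ^ N) (2 ^ N) (by omega) (by
      have : ((2 ^ N : ℕ) : ℤ) = (2 : ℤ) ^ N := by push_cast; rfl
      omega)
    have e1 : Cc π (2 ^ N + 2 ^ N) (2 ^ N) = 2 := by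
      have := hC2 N 0 (by positivity)
      rwa [add_zero] at this
    rw [e1] at h4
    have e2 : 2 ^ N + 2 ^ N = 2 ^ (N + 1) := by ring
    by_cases hd : d t ≤ 0
    · right
      refine ⟨hd, ?_⟩
      have e3 : ((2 ^ N + 2 ^ N : ℕ) - d t : ℤ).toNat = 2 ^ N + (2 ^ N + (d t).natAbs) := by omega
      rw [e3, hC2 N _ (by omega), e2] at h4
      have h5 : (2 : k) • (ζ t (2 ^ (N + 1)) - ζ t (2 ^ N)) = 0 := by
        rw [smul_sub, h4, sub_self]
      exact sub_eq_zero.mp ((smul_eq_zero.mp h5).resolve_left h20)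
    · left
      have e3 : ((2 ^ N + 2 ^ N : ℕ) - d t : ℤ).toNat = 2 ^ N + (2 ^ N - (d t).natAbs) := by omega
      rw [e3, hC1 N _ (by omega), e2, one_smul] at h4
      exact ⟨by omega, h4.symm⟩
  have hdiv : ∀ t, ∃ w : k, ζ t (2 ^ (M + 1)) 1 = 2 * w := by
    intro t
    by_cases hd : d t ≤ 0
    · -- constant, hence zero
      have hconst : ∀ N, M ≤ N → ζ t (2 ^ N) = ζ t (2 ^ M) := by
        intro N hN
        induction N, hN using Nat.le_induction with
        | base => rfl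
        | succ N hN ih =>
          rcases hstep t N hN with h | h
          · exact absurd h.1 (not_lt.mpr hd)
          · rw [h.2, ih]
      have h5 : ζ t (2 ^ M) 1 = 0 := by
        apply hirr (ζ t (2 ^ M) 0) _ M
        intro N hN
        rw [← hconst N hN]
        exact h1 t (2 ^ N) (by have := hpow N; omega)
      exact ⟨0, by rw [hconst (M + 1) (Nat.le_succ M), h5, mul_zero]⟩
    · rcases hstep t M le_rfl with h | h
      · exact ⟨ζ t (2 ^ M) 1, by rw [h.2, Pi.smul_apply, smul_eq_mul]⟩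
      · exact absurd h.1 hd
  choose W hW using hdiv
  obtain ⟨a, ha⟩ := h3 (2 ^ (M + 1)) (by have := hpow (M + 1); omega) ![- u (2 ^ (M + 1)), 1] (by simp)
  have h5 := congrFun ha 1
  rw [Finset.sum_apply] at h5
  apply h2u
  have h6 : (2 : k) ∣ 1 := by
    have h7 : (![- u (2 ^ (M + 1)), 1] : Fin 2 → k) 1 = 1 := rfl
    rw [h7] at h5
    rw [h5]
    apply Finset.dvd_sum
    intro t _
    rw [Pi.smul_apply, smul_eq_mul, hW t]
    exact Dvd.dvd.mul_left (dvd_mul_right _ _) _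
  exact isUnit_of_dvd_one h6

end Abstract

/-! ### The source and the target are nfp -/

section Nfp

variable {k : Type} [CommRing k] [IsNoetherianRing k] (π : ℕ → k)

lemma finite_free {p : ℕ} (d : Fin p → ℤ) (j : ℤ) : Module.Finite k ((free π d).comp j) :=
  Module.Finite.of_injective (fincl π d j) (fincl_injective d j)

omit [IsNoetherianRing k] in
lemma free_subsingleton {p : ℕ} (e : ℤ) {j : ℤ} (hj : j < e) :
    Subsingleton ((free π (fun _ : Fin p => e)).comp j) := by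
  constructor
  intro a b
  apply fincl_injective
  funext t
  rw [fincl_zero _ a hj, fincl_zero _ b hj]

lemma nfp_MM : IsNfp (MM π) := by
  refine ⟨?_, ⟨0, ?_⟩, ?_⟩
  · intro j
    exact Module.Finite.of_injective ((fincl π (fun _ : Fin 2 => (0 : ℤ)) j).comp
      ((trunc 1 (DD π)).incl j)) ((fincl_injective _ _).comp (Sub.incl_injective _ _))
  · intro j hj
    have h : Subsingleton ((DD π).comp j) := free_subsingleton (p := 2) π 0 hj
    exact (Sub.incl_injective (trunc 1 (DD π)) j).subsingleton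
  · exact ⟨DD π, fp_free _, 1, trunc_trunc 1 _⟩

lemma nfp_NN : IsNfp (NN π) := by
  refine ⟨?_, ⟨0, ?_⟩, ?_⟩
  · intro j
    have h := finite_free π (fun _ : Fin 1 => (0 : ℤ)) j
    exact Module.Finite.of_surjective (Submodule.mkQ (LinearMap.range ((rel π).map j)))
      (Submodule.mkQ_surjective _)
  · intro j hj
    have h := free_subsingleton (p := 1) π 0 hj
    exact (Submodule.mkQ_surjective (LinearMap.range ((rel π).map j))).subsingleton
  · exact ⟨NN π, ⟨1, 1, _, _, rel π, Isomorphic.refl _⟩, 0, Isomorphic.refl _⟩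

end Nfp

/-! ### The sequence `π` -/

section Pi

variable (k : Type) [CommRing k]

open Classical in
/-- `π_n = 2` if `n` is a power `2^i` with `i ≥ 1`, and `π_n = 1` otherwise. -/
noncomputable def pi2 : ℕ → k := fun n => if ∃ i, 1 ≤ i ∧ n = 2 ^ i then 2 else 1

variable {k}

lemma pi2_pow {i : ℕ} (hi : 1 ≤ i) : pi2 k (2 ^ i) = 2 := if_pos ⟨i, hi, rfl⟩

lemma pi2_eq_one {n : ℕ} (h : ¬ ∃ i, 1 ≤ i ∧ n = 2 ^ i) : pi2 k n = 1 := if_neg h

lemma div_aux {N i e : ℕ} (hi : i ≤ N) : (2 ^ N + e) / 2 ^ i = 2 ^ N / 2 ^ i + e / 2 ^ i := by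
  obtain ⟨q, hq⟩ := pow_dvd_pow 2 hi
  rw [hq, Nat.mul_div_cancel_left _ (by positivity), Nat.mul_add_div (by positivity)]

lemma hC1 (N e : ℕ) (he : e < 2 ^ N) : Cc (pi2 k) (2 ^ N + e) (2 ^ N) = 1 := by
  unfold Cc
  apply Finset.prod_eq_one
  intro d _
  by_cases h : ∃ i, 1 ≤ i ∧ d = 2 ^ i
  · obtain ⟨i, hi, rfl⟩ := h
    have h0 : (2 ^ N + e) / 2 ^ i - 2 ^ N / 2 ^ i - (2 ^ N + e - 2 ^ N) / 2 ^ i = 0 := by
      rw [Nat.add_sub_cancel_left]
      by_cases hiN : i ≤ N
      · rw [div_aux hiN]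
        omega
      · have h1 : 2 ^ (N + 1) ≤ 2 ^ i := Nat.pow_le_pow_right (by norm_num) (by omega)
        have h2 : 2 ^ (N + 1) = 2 ^ N + 2 ^ N := by ring
        rw [Nat.div_eq_of_lt (by omega : 2 ^ N + e < 2 ^ i), Nat.zero_sub, Nat.zero_sub]
    rw [h0, pow_zero]
  · rw [pi2_eq_one h, one_pow]

lemma hC2 (N e : ℕ) (he : e < 2 ^ N) : Cc (pi2 k) (2 ^ N + (2 ^ N + e)) (2 ^ N) = 2 := by
  unfold Cc
  have h2 : 2 ^ (N + 1) = 2 ^ N + 2 ^ N := by ring
  have hpos : 1 ≤ 2 ^ N := Nat.one_le_two_pow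
  rw [Finset.prod_eq_single_of_mem (2 ^ (N + 1))]
  · have h3 : (2 ^ N + (2 ^ N + e)) / 2 ^ (N + 1) = 1 := by
      rw [Nat.div_eq_iff (by positivity)]
      omega
    rw [h3, Nat.add_sub_cancel_left, Nat.div_eq_of_lt (by omega : 2 ^ N < 2 ^ (N + 1)),
      Nat.div_eq_of_lt (by omega : 2 ^ N + e < 2 ^ (N + 1)), pi2_pow (by omega)]
    norm_num
  · rw [Finset.mem_Icc]
    omega
  · intro d _ hd
    by_cases h : ∃ i, 1 ≤ i ∧ d = 2 ^ i
    · obtain ⟨i, hi, rfl⟩ := h
      have h0 : (2 ^ N + (2 ^ N + e)) / 2 ^ i - 2 ^ N / 2 ^ i -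
          (2 ^ N + (2 ^ N + e) - 2 ^ N) / 2 ^ i = 0 := by
        rw [Nat.add_sub_cancel_left]
        by_cases hiN : i ≤ N
        · rw [div_aux hiN, div_aux hiN]
          omega
        · have hne : i ≠ N + 1 := fun h => hd (by rw [h])
          have h1 : 2 ^ (N + 2) ≤ 2 ^ i := Nat.pow_le_pow_right (by norm_num) (by omega)
          have h3 : 2 ^ (N + 2) = 2 ^ (N + 1) + 2 ^ (N + 1) := by ring
          rw [Nat.div_eq_of_lt (by omega : 2 ^ N + (2 ^ N + e) < 2 ^ i), Nat.zero_sub, Nat.zero_sub]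
      rw [h0, pow_zero]
    · rw [pi2_eq_one h, one_pow]

lemma a_dvd (m : ℕ) : Cc (pi2 k) m 1 ∣ 2 ^ m := by
  unfold Cc
  have h1 : ∏ d ∈ Finset.Icc 2 m, pi2 k d ^ (m / d - 1 / d - (m - 1) / d) ∣
      ∏ _d ∈ Finset.Icc 2 m, (2 : k) := by
    apply Finset.prod_dvd_prod_of_dvd
    intro d hd
    rw [Finset.mem_Icc] at hd
    have h2 : m / d - 1 / d - (m - 1) / d ≤ 1 := by
      obtain ⟨m, rfl⟩ := Nat.exists_eq_succ_of_ne_zero (by omega : m ≠ 0)
      have h3 : (m + 1) / d = m / d + if d ∣ m + 1 then 1 else 0 := Nat.succ_div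
      rw [Nat.succ_eq_add_one, Nat.add_sub_cancel, Nat.div_eq_of_lt (by omega : 1 < d), Nat.sub_zero]
      split_ifs at h3 <;> omega
    have h4 : pi2 k d ^ (m / d - 1 / d - (m - 1) / d) ∣ pi2 k d ^ 1 := pow_dvd_pow _ h2
    rw [pow_one] at h4
    refine h4.trans ?_
    unfold pi2
    split_ifs
    · exact dvd_rfl
    · exact one_dvd _
  refine h1.trans ?_
  rw [Finset.prod_const, Nat.card_Icc]
  exact pow_dvd_pow _ (by omega)

lemma dvd_a (N : ℕ) : (2 : k) ^ N ∣ Cc (pi2 k) (2 ^ N) 1 := by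
  unfold Cc
  have h1 : ((Finset.Icc 1 N).image fun i => 2 ^ i) ⊆ Finset.Icc 2 (2 ^ N) := by
    intro d hd
    rw [Finset.mem_image] at hd
    obtain ⟨i, hi, rfl⟩ := hd
    rw [Finset.mem_Icc] at hi ⊢
    refine ⟨?_, Nat.pow_le_pow_right (by norm_num) hi.2⟩
    calc 2 = 2 ^ 1 := rfl
      _ ≤ 2 ^ i := Nat.pow_le_pow_right (by norm_num) hi.1
  refine dvd_trans ?_ (Finset.prod_dvd_prod_of_subset _ _ _ h1)
  rw [Finset.prod_image (fun i _ j _ h => Nat.pow_right_injective le_rfl h)]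
  apply dvd_of_eq
  rw [Finset.prod_congr rfl (g := fun _ => (2 : k)), Finset.prod_const, Nat.card_Icc,
    Nat.add_sub_cancel]
  intro i hi
  rw [Finset.mem_Icc] at hi
  rw [pi2_pow hi.1]
  have h2 : 1 < 2 ^ i := Nat.one_lt_two_pow (by omega)
  have h3 : 2 ^ N / 2 ^ i - 1 / 2 ^ i - (2 ^ N - 1) / 2 ^ i = 1 := by
    rw [Nat.div_eq_of_lt h2]
    obtain ⟨q, hq⟩ := pow_dvd_pow 2 hi.2
    have hq0 : 0 < q := by
      rcases Nat.eq_zero_or_pos q with rfl | h
      · rw [mul_zero] at hq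
        have : 0 < 2 ^ N := by positivity
        omega
      · exact h
    obtain ⟨q, rfl⟩ := Nat.exists_eq_succ_of_ne_zero hq0.ne'
    have h4 : 2 ^ N - 1 = 2 ^ i * q + (2 ^ i - 1) := by
      rw [hq, Nat.mul_succ]
      omega
    rw [h4, hq, Nat.mul_div_cancel_left _ (by positivity), Nat.mul_add_div (by positivity),
      Nat.div_eq_of_lt (by omega : 2 ^ i - 1 < 2 ^ i)]
    omega
  rw [h3, pow_one]

end Pi

/-! ### The sequence `u` -/

section U

/-- The integers `u_m = ∑_{i < m} 2^(i^2)`. -/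
def uZ (m : ℕ) : ℤ := ∑ i ∈ Finset.range m, 2 ^ (i ^ 2)

lemma uZ_add (m n : ℕ) : (2 : ℤ) ^ (m ^ 2) ∣ uZ (m + n) - uZ m := by
  unfold uZ
  rw [Finset.sum_range_add, add_sub_cancel_left]
  apply Finset.dvd_sum
  intro i _
  apply pow_dvd_pow
  exact Nat.pow_le_pow_left (Nat.le_add_right m i) 2

lemma uZ_nonneg (m : ℕ) : 0 ≤ uZ m := Finset.sum_nonneg fun i _ => by positivity

lemma uZ_lt (j : ℕ) : uZ (j + 1) < 2 ^ (j ^ 2 + 1) := by
  induction j with
  | zero => simp [uZ]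
  | succ j ih =>
    unfold uZ at ih ⊢
    rw [Finset.sum_range_succ]
    have h1 : (2 : ℤ) ^ (j ^ 2 + 1) ≤ 2 ^ ((j + 1) ^ 2) :=
      pow_le_pow_right₀ (by norm_num) (by rw [add_sq]; omega)
    rw [pow_succ (2 : ℤ) ((j + 1) ^ 2)]
    linarith

lemma irr_int {a b : ℤ} {N₀ : ℕ} (h : ∀ N, N₀ ≤ N → (2 : ℤ) ^ N ∣ a + uZ (2 ^ N) * b) : b = 0 := by
  have hpow : ∀ N : ℕ, N < 2 ^ N := fun N => Nat.lt_two_pow_self
  set J := N₀ + a.natAbs + b.natAbs with hJ
  have key : ∀ j, J ≤ j → a + uZ (j + 1) * b = 0 := by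
    intro j hj
    have hj2 : j + 1 ≤ (j + 1) ^ 2 := Nat.le_self_pow (by norm_num) _
    have h1 := h ((j + 1) ^ 2) (by omega)
    have h2 : (2 : ℤ) ^ ((j + 1) ^ 2) ∣ a + uZ (j + 1) * b := by
      have h3 := hpow ((j + 1) ^ 2)
      obtain ⟨n, hn⟩ := Nat.exists_eq_add_of_le (by omega : j + 1 ≤ 2 ^ ((j + 1) ^ 2))
      rw [hn] at h1
      have h4 := dvd_sub h1 (Dvd.dvd.mul_right (uZ_add (j + 1) n) b)
      have e : a + uZ (j + 1 + n) * b - (uZ (j + 1 + n) - uZ (j + 1)) * b = a + uZ (j + 1) * b := by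
        ring
      rwa [e] at h4
    apply Int.eq_zero_of_abs_lt_dvd h2
    have h5 : |a + uZ (j + 1) * b| ≤ |a| + uZ (j + 1) * |b| := by
      refine (abs_add_le _ _).trans ?_
      rw [abs_mul, abs_of_nonneg (uZ_nonneg _)]
    have h6 := uZ_lt j
    have h7 : (|a| + |b| : ℤ) < 2 ^ (2 * j) := by
      have h8 : a.natAbs + b.natAbs < 2 ^ (2 * j) :=
        lt_of_le_of_lt (by omega : a.natAbs + b.natAbs ≤ 2 * j) (hpow _)
      have h9 : ((a.natAbs + b.natAbs : ℕ) : ℤ) < ((2 ^ (2 * j) : ℕ) : ℤ) := by exact_mod_cast h8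
      push_cast at h9
      exact h9
    have h10 : (2 : ℤ) ^ ((j + 1) ^ 2) = 2 ^ (j ^ 2 + 1) * 2 ^ (2 * j) := by
      rw [← pow_add]
      congr 1
      ring
    rw [h10]
    have h11 : (1 : ℤ) ≤ 2 ^ (j ^ 2 + 1) := one_le_pow₀ (by norm_num)
    have h12 : |a| + uZ (j + 1) * |b| ≤ 2 ^ (j ^ 2 + 1) * (|a| + |b|) := by
      nlinarith [abs_nonneg a, abs_nonneg b]
    have h13 : (2 : ℤ) ^ (j ^ 2 + 1) * (|a| + |b|) < 2 ^ (j ^ 2 + 1) * 2 ^ (2 * j) :=
      mul_lt_mul_of_pos_left h7 (by positivity)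
    linarith
  have h1 := key J le_rfl
  have h2 := key (J + 1) (Nat.le_succ J)
  have h3 : uZ (J + 1 + 1) = uZ (J + 1) + 2 ^ ((J + 1) ^ 2) := Finset.sum_range_succ _ _
  rw [h3] at h2
  have h4 : (2 : ℤ) ^ ((J + 1) ^ 2) * b = 0 := by linear_combination h2 - h1
  exact (mul_eq_zero.mp h4).resolve_left (by positivity)

end U

/-! ### The ring `ℤ_(2)` -/

section Ring

instance prime2 : (Ideal.span {(2 : ℤ)}).IsPrime :=
  (Ideal.span_singleton_prime (by norm_num)).mpr Int.prime_two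

/-- The ring `ℤ_(2)` of rational numbers with odd denominator. -/
def Z2 : Type := Localization.AtPrime (Ideal.span {(2 : ℤ)})

noncomputable instance : CommRing Z2 := OreLocalization.instCommRing

noncomputable instance : Algebra ℤ Z2 := OreLocalization.instAlgebra

instance : IsLocalization.AtPrime Z2 (Ideal.span {(2 : ℤ)}) :=
  inferInstanceAs (IsLocalization.AtPrime (Localization.AtPrime _) (Ideal.span {(2 : ℤ)}))

instance : IsLocalRing Z2 := inferInstanceAs (IsLocalRing (Localization.AtPrime _))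

lemma odd_iff (s : ℤ) : s ∈ (Ideal.span {(2 : ℤ)}).primeCompl ↔ ¬ (2 : ℤ) ∣ s := by
  rw [Ideal.mem_primeCompl_iff, Ideal.mem_span_singleton]

instance : IsDomain Z2 := inferInstanceAs (IsDomain (Localization.AtPrime _))

instance : IsNoetherianRing Z2 := inferInstanceAs (IsNoetherianRing (Localization.AtPrime _))

lemma algebraMap_inj : Function.Injective (algebraMap ℤ Z2) :=
  IsLocalization.injective Z2
    (Ideal.primeCompl_le_nonZeroDivisors (Ideal.span {(2 : ℤ)}))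

lemma two_pow_dvd {N : ℕ} {x : ℤ} (h : (2 : Z2) ^ N ∣ algebraMap ℤ Z2 x) : (2 : ℤ) ^ N ∣ x := by
  obtain ⟨q, hq⟩ := h
  obtain ⟨⟨y, s⟩, rfl⟩ := IsLocalization.mk'_surjective (Ideal.span {(2 : ℤ)}).primeCompl q
  have h1 : algebraMap ℤ Z2 (x * s) = algebraMap ℤ Z2 (2 ^ N * y) := by
    rw [map_mul, hq, mul_assoc, IsLocalization.mk'_spec, map_mul, map_pow, map_ofNat]
  have h2 := algebraMap_inj h1
  have h3 : IsCoprime ((2 : ℤ) ^ N) s := by
    apply IsCoprime.pow_left
    rw [Int.prime_two.coprime_iff_not_dvd]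
    exact (odd_iff _).mp s.2
  exact h3.dvd_of_dvd_mul_right ⟨y, h2⟩

lemma two_mem : (2 : Z2) ∈ IsLocalRing.maximalIdeal Z2 := by
  have h := (IsLocalization.AtPrime.to_map_mem_maximal_iff Z2 (Ideal.span {(2 : ℤ)}) (2 : ℤ)).mpr
    (Ideal.mem_span_singleton_self _)
  rwa [map_ofNat] at h

lemma two_ne : (2 : Z2) ≠ 0 := by
  intro h
  have h1 : algebraMap ℤ Z2 2 = algebraMap ℤ Z2 0 := by
    rw [map_ofNat, map_zero, h]
  exact two_ne_zero (algebraMap_inj h1)

lemma irr {a b : Z2} {N₀ : ℕ}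
    (h : ∀ N, N₀ ≤ N → (2 : Z2) ^ N ∣ a + algebraMap ℤ Z2 (uZ (2 ^ N)) * b) : b = 0 := by
  obtain ⟨x, s, rfl⟩ := IsLocalization.exists_mk'_eq (Ideal.span {(2 : ℤ)}).primeCompl a
  obtain ⟨y, t, rfl⟩ := IsLocalization.exists_mk'_eq (Ideal.span {(2 : ℤ)}).primeCompl b
  have h1 : y * s = 0 := by
    apply irr_int (a := x * t) (N₀ := N₀)
    intro N hN
    apply two_pow_dvd
    have h2 := (h N hN).mul_right (algebraMap ℤ Z2 (s * t))
    refine h2.trans (dvd_of_eq ?_)
    have e1 := IsLocalization.mk'_spec Z2 x s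
    have e2 := IsLocalization.mk'_spec Z2 y t
    simp only [map_add, map_mul] at e1 e2 ⊢
    linear_combination (algebraMap ℤ Z2 (t : ℤ)) * e1 +
      (algebraMap ℤ Z2 (uZ (2 ^ N)) * algebraMap ℤ Z2 (s : ℤ)) * e2
  have hs : (s : ℤ) ≠ 0 := by
    intro h2
    have h3 := (odd_iff _).mp s.2
    rw [h2] at h3
    exact h3 (dvd_zero _)
  have hy : y = 0 := (mul_eq_zero.mp h1).resolve_right hs
  rw [hy, IsLocalization.mk'_zero]

lemma admissible : Admissible (pi2 Z2) := by
  intro n m hn hm P hP h1 h2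
  have hex : ∀ n, pi2 Z2 n ∈ P → ∃ i, 1 ≤ i ∧ n = 2 ^ i := by
    intro n hn
    by_contra h
    rw [pi2_eq_one h] at hn
    exact hP.ne_top ((Ideal.eq_top_iff_one P).mpr hn)
  obtain ⟨i, _, rfl⟩ := hex n h1
  obtain ⟨j, _, rfl⟩ := hex m h2
  rcases le_total i j with h | h
  · exact Or.inl (pow_dvd_pow 2 h)
  · exact Or.inr (pow_dvd_pow 2 h)

lemma infinite : {n | 2 ≤ n ∧ pi2 Z2 n ∈ Ring.jacobson Z2}.Infinite := by
  apply Set.infinite_of_injective_forall_mem (f := fun i : ℕ => 2 ^ (i + 1))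
  · intro i j h
    have := Nat.pow_right_injective le_rfl h
    omega
  · intro i
    refine ⟨?_, ?_⟩
    · show 2 ≤ 2 ^ (i + 1)
      calc 2 = 2 ^ 1 := rfl
        _ ≤ 2 ^ (i + 1) := Nat.pow_le_pow_right (by norm_num) (by omega)
    · rw [pi2_pow (by omega), IsLocalRing.ringJacobson_eq_maximalIdeal]
      exact two_mem

/-- The elements `u_m` of `ℤ_(2)`. -/
noncomputable def u2 (m : ℕ) : Z2 := algebraMap ℤ Z2 (uZ m)

lemma hu2 (m n : ℕ) (_ : 1 ≤ m) : Cc (pi2 Z2) m 1 ∣ u2 (m + n) - u2 m := by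
  refine (a_dvd m).trans ?_
  unfold u2
  rw [← map_sub]
  have h1 : algebraMap ℤ Z2 ((2 : ℤ) ^ (m ^ 2)) = 2 ^ (m ^ 2) := by rw [map_pow, map_ofNat]
  have h2 := map_dvd (algebraMap ℤ Z2) (uZ_add m n)
  rw [h1] at h2
  exact (pow_dvd_pow 2 (Nat.le_self_pow (by norm_num) m)).trans h2

end Ring

/-- Let `k = ℤ_(2)`, `π_n = 2` if `n ≥ 2` is a power of `2` and `π_n = 1` otherwise. Then `k` is
noetherian, `π` is admissible, the Jacobson radical of `k` contains infinitely many `π_n`, and the map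
`(c, d) x^{[m]} ↦ (c + u_m d) x^{[m]}`, `u_m = ∑_{i < m} 2^(i^2)`, from `τ_{≥ 1}(D ⊕ D)` to
`D/(x^{[1]})` is a morphism between nfp modules whose kernel is not nfp. So the answer to Q1 is
negative. -/
theorem result :
    (IsNoetherianRing Z2 ∧ Admissible (pi2 Z2) ∧
      {n | 2 ≤ n ∧ pi2 Z2 n ∈ Ring.jacobson Z2}.Infinite ∧
      IsNfp (MM (pi2 Z2)) ∧ IsNfp (NN (pi2 Z2)) ∧
      ¬ IsNfp (ff (pi2 Z2) (u := u2) hu2).ker.toGrMod) ∧
    ¬ Q1 := by
  have hmain : ¬ IsNfp (ff (pi2 Z2) (u := u2) hu2).ker.toGrMod := by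
    apply not_nfp hu2 two_ne
    · intro h
      exact (IsLocalRing.mem_maximalIdeal _).mp two_mem h
    · exact hC2
    · exact hC1
    · intro a b N₀ h
      apply irr (a := a) (N₀ := N₀)
      intro N hN
      exact (dvd_a N).trans (h N hN)
  refine ⟨⟨inferInstance, admissible, infinite, nfp_MM _, nfp_NN _, hmain⟩, ?_⟩
  intro hQ
  exact hmain (hQ Z2 (pi2 Z2) admissible infinite _ _ _ (nfp_MM _) (nfp_NN _)).1

end Pool.Agent.Results.MP_ae9641_al.KernelNotNfp
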